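import Pool.Agent.KS6_46.BM.Ambient

/-!
# The largest possible gap between the bounding number and the additivity of the meager-additive ideal

For every infinite cardinal `κ` with `κ ^ ℵ₀ = κ` there is a ccc notion of forcing which forces
`𝔟 = add(M) = ℵ₁` and `add(MA) = non(MA) = 𝔠 = κ⁺`; moreover the meager-additive sets of the
extension are exactly the sets of size less than the continuum.

* (A) the notion of forcing `P` forces the combinatorial sentence `PsiFor J K L`, where `#J = ℵ₁`,
  `#K = κ`, and `L` is well-ordered of type `κ⁺` (`PsiHolds P J K L` is the literal translation of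
  this sentence into the forcing language): there is an unbounded family of functions indexed by
  `J`; all families of reals indexed by `K` are captured for all partitions; no family of different
  reals indexed by `L` is captured for all partitions; all reals can be listed by `L`.
* (B) this sentence implies the values of the cardinal characteristics.

The notion of forcing is the finite support iteration of the library, of length `κ⁺` instead of
`𝔠⁺`, with the bookkeeping changed in the first `ω₁` coordinates, where the partition into
singletons is handled. The new point is that the `ω₁` many generic partitions which are added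
there remain unbounded: for each real `f` of the final model there is a sequence `A` in the model
at stage `ω₁` such that the inequality `f(A(l)) ≤ A(l + 1)` holds on arbitrarily long runs of
numbers `l` (long with respect to each function of the model at stage `ω₁`); by the countable
chain condition `A` belongs to the model at an earlier stage, and the next generic partition jumps
over some interval `[A(l), A(l + 1)]` in some of these runs.
-/

set_option autoImplicit false
set_option linter.deprecated false

namespace Pool.Agent.Results.MP_28e4c5_lc.LargestGap

open Cardinal Pool.Agent.KS6_46.BM Pool.Agent.W684 Pool.Agent.W684.BMA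
  Pool.Agent.Helper669.Forcing

/-- (A) For every infinite `κ` with `κ ^ ℵ₀ = κ` there are sets `J`, `K` of size `ℵ₁`, `κ`, a
well-ordered set `L` of size `κ⁺` all of whose initial segments can be embedded into `K`, and a ccc
notion of forcing `P`, which preserves cardinals, all of whose conditions force the sentence
`PsiFor J K L`. (B) Whenever `#J ≤ ℵ₁`, `K` is infinite, the initial segments of the well-ordered
set `L` can be embedded into `K`, and `PsiFor J K L` holds, then `𝔟 = add(M) = ℵ₁`,
`add(MA) = non(MA) = 𝔠 = (#K)⁺`, and the meager-additive sets are the sets of size less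
than `𝔠`. -/
theorem result :
    (∀ κ : Cardinal.{0}, ℵ₀ ≤ κ → κ ^ ℵ₀ = κ →
      ∃ (J K L P : Type) (_ : LinearOrder L) (_ : WellFoundedLT L) (_ : Preorder P),
        #J = ℵ₁ ∧ #K = κ ∧ #L = Order.succ κ ∧ (∀ l : L, Nonempty (Set.Iio l ↪ K)) ∧
        Nonempty P ∧
        (∀ A : Set P, (∀ p ∈ A, ∀ q ∈ A, p ≠ q → ¬ ∃ r, r ≤ p ∧ r ≤ q) → A.Countable) ∧
        (∀ p : P, p ∈ CardinalsPreserved.{0, 0} P) ∧
        ∀ p : P, p ∈ PsiHolds P J K L) ∧
    (∀ (J K L : Type) (_ : LinearOrder L) (_ : WellFoundedLT L), #J ≤ ℵ₁ → Infinite K →
      (∀ l : L, Nonempty (Set.Iio l ↪ K)) → PsiFor J K L →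
      bounding = ℵ₁ ∧ additivity MeagerSets = ℵ₁ ∧ 𝔠 = Order.succ #K ∧
        MASets = {X : Set (ℕ → ZMod 2) | #X < 𝔠} ∧ additivity MASets = 𝔠 ∧
        uniformity MASets = 𝔠) := by
  constructor
  · intro κ hκ hκω
    have hinf : Infinite κ.out := by
      rw [Cardinal.infinite_iff, Cardinal.mk_out]
      exact hκ
    have hK : #κ.out ^ ℵ₀ = #κ.out := by
      rw [Cardinal.mk_out]
      exact hκω
    obtain ⟨P, hP, hne, hccc, h⟩ := exists_forcing κ.out hK
    refine ⟨FM.Om1, κ.out, (Order.succ #κ.out).ord.ToType, P, inferInstance, inferInstance, hP,
      ?_, Cardinal.mk_out κ, ?_, fun l => ?_, hne, hccc, hccc.cardinalsPreserved, h⟩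
    · rw [Cardinal.mk_ord_toType]
    · rw [Cardinal.mk_ord_toType, Cardinal.mk_out]
    · exact Order.lt_succ_iff.1 (Cardinal.mk_Iio_toType_ord_lt l)
  · intro J K L _ _ hJ _ hL h
    exact values hJ hL h

end Pool.Agent.Results.MP_28e4c5_lc.LargestGap
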